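import Mathlib

/-!
# Random walk in a random unit-arrow drift field: no local homogenization

The arrows are i.i.d. uniform unit arrows, frozen in time. We prove that in every dimension and
for every `ε ∈ (0, 1/(2d))` the local part (ii) of homogenization fails, already at the origin and
for even times: the quenched kernel at a site feels the arrows of the neighbours of that site.
-/

set_option autoImplicit false

open MeasureTheory ProbabilityTheory Filter Topology
open scoped ENNReal

namespace Pool.Agent.Results.MP_31ab2b_pr.NoLocalHomogenization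

/-- The unit vector `e_i` for `(i, true)` and `-e_i` for `(i, false)`. -/
def unitVec {d : ℕ} (e : Fin d × Bool) : Fin d → ℤ := Pi.single e.1 (if e.2 then (1 : ℤ) else -1)

/-- An environment: the arrow `n₀(x)` at every site `x`, encoded by `Fin d × Bool`. -/
abbrev Env (d : ℕ) : Type := (Fin d → ℤ) → Fin d × Bool

/-- The law of the environment: independent arrows, uniform on the `2 d` unit vectors. -/
noncomputable def envLaw (d : ℕ) [NeZero d] : Measure (Env d) :=
  Measure.infinitePi (fun _ => (PMF.uniformOfFintype (Fin d × Bool)).toMeasure)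

open Classical in
/-- The transition probability `p(x, z, ω)`. -/
noncomputable def trans {d : ℕ} (ε : ℝ) (ω : Env d) (x z : Fin d → ℤ) : ℝ :=
  if x - z = unitVec (ω x) then 1 - (2 * (d : ℝ) - 1) * ε
  else if ∃ e : Fin d × Bool, x - z = unitVec e then ε else 0

/-- The quenched law `p_ω(n, ·)` of `X_n`, started at `0`: the probability of `z` at time `n + 1` is
the sum over the neighbours `x` of `z` of `p_ω(n, x) p(x, z, ω)`. -/
noncomputable def quenched {d : ℕ} (ε : ℝ) (ω : Env d) : ℕ → (Fin d → ℤ) → ℝ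
  | 0, z => if z = 0 then 1 else 0
  | (n + 1), z => ∑ e : Fin d × Bool, quenched ε ω n (z + unitVec e) * trans ε ω (z + unitVec e) z

/-- The averaged kernel `m₁(n, x)`. -/
noncomputable def averaged (d : ℕ) [NeZero d] (ε : ℝ) (n : ℕ) (x : Fin d → ℤ) : ℝ :=
  ∫ ω, quenched ε ω n x ∂(envLaw d)

/-- The Euclidean norm of a lattice point. -/
noncomputable def enorm' {d : ℕ} (x : Fin d → ℤ) : ℝ := Real.sqrt (∑ i, (x i : ℝ) ^ 2)

/-- Part (i): under the averaged law `X_n / √n` converges in law to a centred Gaussian of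
covariance `σ² I`, for some `σ > 0`. -/
def AveragedCLT (d : ℕ) [NeZero d] (ε : ℝ) : Prop :=
  ∃ σ : ℝ, 0 < σ ∧ ∀ f : BoundedContinuousFunction (Fin d → ℝ) ℝ,
    Tendsto (fun n : ℕ => ∑' x : Fin d → ℤ, averaged d ε n x * f (fun i => (x i : ℝ) / Real.sqrt n))
      atTop (𝓝 (∫ y, f (fun i => σ * y i) ∂(Measure.pi fun _ : Fin d => gaussianReal 0 1)))

/-- Part (ii): for all `C, δ > 0` the supremum over `|x| ≤ C √n` with `m₁(n, x) > 0` of the
probability that `|p_ω(n, x) / m₁(n, x) - 1| > δ` tends to `0`. -/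
def LocalHomogenization (d : ℕ) [NeZero d] (ε : ℝ) : Prop :=
  ∀ C δ : ℝ, 0 < C → 0 < δ →
    Tendsto (fun n : ℕ => ⨆ (x : Fin d → ℤ) (_ : enorm' x ≤ C * Real.sqrt n ∧
      0 < averaged d ε n x), envLaw d {ω | δ < |quenched ε ω n x / averaged d ε n x - 1|})
      atTop (𝓝 0)

/-- The model homogenizes. -/
def Homogenizes (d : ℕ) [NeZero d] (ε : ℝ) : Prop := AveragedCLT d ε ∧ LocalHomogenization d ε

section
variable {d : ℕ}

theorem unitVec_ne_zero (e : Fin d × Bool) : unitVec e ≠ 0 := by
  intro h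
  have := congrFun h e.1
  unfold unitVec at this
  rw [Pi.single_eq_same] at this
  split_ifs at this <;> simp at this

theorem unitVec_inj {e e' : Fin d × Bool} (h : unitVec e = unitVec e') : e = e' := by
  obtain ⟨i, b⟩ := e
  obtain ⟨i', b'⟩ := e'
  unfold unitVec at h
  simp only at h
  have h1 := congrFun h i
  rw [Pi.single_eq_same] at h1
  by_cases hi : i = i'
  · subst hi
    rw [Pi.single_eq_same] at h1
    cases b <;> cases b' <;> simp_all
  · rw [Pi.single_eq_of_ne hi] at h1
    split_ifs at h1 <;> simp at h1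

/-- the opposite direction -/
def opp (e : Fin d × Bool) : Fin d × Bool := (e.1, !e.2)

theorem unitVec_opp (e : Fin d × Bool) : unitVec (opp e) = - unitVec e := by
  obtain ⟨i, b⟩ := e
  unfold unitVec opp
  cases b <;> ext j <;> by_cases hj : j = i <;> simp [hj, Pi.single_apply]

variable {ε : ℝ}

theorem trans_nonneg (hε : 0 < ε) (hε2 : (2 * (d : ℝ) - 1) * ε ≤ 1) (ω : Env d)
    (x z : Fin d → ℤ) : 0 ≤ trans ε ω x z := by
  unfold trans
  split_ifs <;> linarith

theorem trans_le (hε : 0 < ε) (hd : 1 ≤ d) (hε2 : (2 * (d : ℝ) - 1) * ε ≤ 1) (ω : Env d)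
    (x z : Fin d → ℤ) : trans ε ω x z ≤ 1 := by
  have hd' : (1 : ℝ) ≤ d := by exact_mod_cast hd
  have h1 : ε ≤ (2 * (d : ℝ) - 1) * ε := by nlinarith
  unfold trans
  split_ifs
  · nlinarith
  · linarith
  · norm_num

theorem trans_ge (hε : 0 < ε) (hε2 : 2 * (d : ℝ) * ε ≤ 1) (ω : Env d)
    (z : Fin d → ℤ) (e : Fin d × Bool) : ε ≤ trans ε ω (z + unitVec e) z := by
  unfold trans
  have h : ∃ e' : Fin d × Bool, z + unitVec e - z = unitVec e' := ⟨e, by simp⟩
  rw [if_pos h]
  split_ifs
  · linarith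
  · exact le_rfl

theorem quenched_nonneg (hε : 0 < ε) (hε2 : (2 * (d : ℝ) - 1) * ε ≤ 1) (ω : Env d) (n : ℕ)
    (z : Fin d → ℤ) : 0 ≤ quenched ε ω n z := by
  induction n generalizing z with
  | zero => unfold quenched; split_ifs <;> norm_num
  | succ n ih =>
    unfold quenched
    exact Finset.sum_nonneg fun e _ => mul_nonneg (ih _) (trans_nonneg hε hε2 _ _ _)

theorem quenched_le (hε : 0 < ε) (hd : 1 ≤ d) (hε2 : (2 * (d : ℝ) - 1) * ε ≤ 1) (ω : Env d)
    (n : ℕ) (z : Fin d → ℤ) : quenched ε ω n z ≤ (2 * (d : ℝ)) ^ n := by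
  have hd' : (1 : ℝ) ≤ d := by exact_mod_cast hd
  induction n generalizing z with
  | zero => unfold quenched; split_ifs <;> norm_num
  | succ n ih =>
    unfold quenched
    calc ∑ e : Fin d × Bool, quenched ε ω n (z + unitVec e) * trans ε ω (z + unitVec e) z
        ≤ ∑ e : Fin d × Bool, (2 * (d : ℝ)) ^ n := by
          apply Finset.sum_le_sum
          intro e _
          calc _ ≤ quenched ε ω n (z + unitVec e) * 1 :=
                mul_le_mul_of_nonneg_left (trans_le hε hd hε2 _ _ _)
                  (quenched_nonneg hε hε2 _ _ _)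
            _ ≤ _ := by rw [mul_one]; exact ih _
      _ = (2 * (d : ℝ)) ^ (n + 1) := by
          rw [Finset.sum_const, Finset.card_univ, Fintype.card_prod, Fintype.card_fin,
            Fintype.card_bool, nsmul_eq_mul]
          push_cast
          ring

theorem quenched_ge (hε : 0 < ε) (hε2 : 2 * (d : ℝ) * ε ≤ 1) (ω : Env d) (k : ℕ)
    (e0 : Fin d × Bool) :
    ε ^ (2 * k) ≤ quenched ε ω (2 * k) 0 ∧
      ∀ e : Fin d × Bool, ε ^ (2 * k + 1) ≤ quenched ε ω (2 * k + 1) (unitVec e) := by
  have hε3 : (2 * (d : ℝ) - 1) * ε ≤ 1 := by nlinarith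
  have step1 : ∀ k, ε ^ (2 * k) ≤ quenched ε ω (2 * k) 0 →
      ∀ e : Fin d × Bool, ε ^ (2 * k + 1) ≤ quenched ε ω (2 * k + 1) (unitVec e) := by
    intro k hk e
    show _ ≤ ∑ e' : Fin d × Bool, quenched ε ω (2 * k) (unitVec e + unitVec e') *
      trans ε ω (unitVec e + unitVec e') (unitVec e)
    have h1 := Finset.single_le_sum (f := fun e' : Fin d × Bool =>
      quenched ε ω (2 * k) (unitVec e + unitVec e') *
      trans ε ω (unitVec e + unitVec e') (unitVec e))
      (fun e' _ => mul_nonneg (quenched_nonneg hε hε3 _ _ _) (trans_nonneg hε hε3 _ _ _))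
      (Finset.mem_univ (opp e))
    refine le_trans ?_ h1
    have h2 : unitVec e + unitVec (opp e) = 0 := by rw [unitVec_opp]; simp
    have h3 := trans_ge hε hε2 ω (unitVec e) (opp e)
    rw [h2] at h3 ⊢
    rw [pow_succ]
    exact mul_le_mul hk h3 hε.le (quenched_nonneg hε hε3 _ _ _)
  have step2 : ∀ k, ε ^ (2 * k) ≤ quenched ε ω (2 * k) 0 := by
    intro k
    induction k with
    | zero => simp [quenched]
    | succ k ih =>
      have h0 := step1 k ih e0
      show _ ≤ ∑ e' : Fin d × Bool, quenched ε ω (2 * k + 1) (0 + unitVec e') *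
        trans ε ω (0 + unitVec e') 0
      have h1 := Finset.single_le_sum (f := fun e' : Fin d × Bool =>
        quenched ε ω (2 * k + 1) (0 + unitVec e') * trans ε ω (0 + unitVec e') 0)
        (fun e' _ => mul_nonneg (quenched_nonneg hε hε3 _ _ _) (trans_nonneg hε hε3 _ _ _))
        (Finset.mem_univ e0)
      refine le_trans ?_ h1
      have h3 := trans_ge hε hε2 ω 0 e0
      rw [zero_add] at h3 ⊢
      have h4 : 2 * (k + 1) = 2 * k + 1 + 1 := by ring
      rw [h4, pow_succ]
      exact mul_le_mul h0 h3 hε.le (quenched_nonneg hε hε3 _ _ _)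
  exact ⟨step2 k, step1 k (step2 k)⟩

theorem measurable_trans (x z : Fin d → ℤ) : Measurable (fun ω : Env d => trans ε ω x z) := by
  classical
  have h1 : Measurable (fun a : Fin d × Bool => if x - z = unitVec a then
      1 - (2 * (d : ℝ) - 1) * ε
    else if ∃ e : Fin d × Bool, x - z = unitVec e then ε else 0) := measurable_of_finite _
  exact h1.comp (measurable_pi_apply x)

theorem measurable_quenched (n : ℕ) (z : Fin d → ℤ) :
    Measurable (fun ω : Env d => quenched ε ω n z) := by
  induction n generalizing z with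
  | zero => unfold quenched; exact measurable_const
  | succ n ih =>
    unfold quenched
    exact Finset.measurable_sum _ fun e _ => (ih _).mul (measurable_trans _ _)

variable [NeZero d]

instance : IsProbabilityMeasure (envLaw d) := by unfold envLaw; infer_instance

theorem integrable_quenched (hε : 0 < ε) (hε2 : (2 * (d : ℝ) - 1) * ε ≤ 1) (n : ℕ)
    (z : Fin d → ℤ) : Integrable (fun ω : Env d => quenched ε ω n z) (envLaw d) := by
  have hd : 1 ≤ d := Nat.one_le_iff_ne_zero.2 (NeZero.ne d)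
  refine Integrable.of_bound (measurable_quenched n z).aestronglyMeasurable ((2 * (d : ℝ)) ^ n) ?_
  refine Filter.Eventually.of_forall fun ω => ?_
  rw [Real.norm_eq_abs, abs_of_nonneg (quenched_nonneg hε hε2 _ _ _)]
  exact quenched_le hε hd hε2 _ _ _

theorem averaged_ge (hε : 0 < ε) (hε2 : (2 * (d : ℝ) - 1) * ε ≤ 1) (n : ℕ) (z : Fin d → ℤ)
    (c : ℝ) (h : ∀ ω : Env d, c ≤ quenched ε ω n z) : c ≤ averaged d ε n z := by
  unfold averaged
  calc c = ∫ _, c ∂(envLaw d) := by simp
    _ ≤ _ := integral_mono (integrable_const _) (integrable_quenched hε hε2 n z) h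

/-- a cylinder event given by possible values has positive probability -/
theorem pos_event (s : Finset (Fin d → ℤ)) (t : (Fin d → ℤ) → Set (Fin d × Bool))
    (ht : ∀ x ∈ s, (t x).Nonempty) : 0 < envLaw d (Set.pi s t) := by
  unfold envLaw
  rw [Measure.infinitePi_pi _ (fun i _ => (t i).toFinite.measurableSet)]
  rw [pos_iff_ne_zero, Finset.prod_ne_zero_iff]
  intro x hx h0
  rw [PMF.toMeasure_apply_eq_zero_iff _ (t x).toFinite.measurableSet] at h0
  obtain ⟨a, ha⟩ := ht x hx
  rw [Set.disjoint_left] at h0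
  refine h0 ?_ ha
  rw [PMF.mem_support_iff, PMF.uniformOfFintype_apply]
  exact ENNReal.inv_ne_zero.2 (ENNReal.natCast_ne_top _)

theorem averaged_pos0 (hε : 0 < ε) (hε2 : 2 * (d : ℝ) * ε ≤ 1) (k : ℕ) (e0 : Fin d × Bool) :
    0 < averaged d ε (2 * k) 0 :=
  lt_of_lt_of_le (pow_pos hε _) (averaged_ge hε (by nlinarith) _ _ _ fun ω =>
    (quenched_ge hε hε2 ω k e0).1)

theorem averaged_pos1 (hε : 0 < ε) (hε2 : 2 * (d : ℝ) * ε ≤ 1) (k : ℕ) (e0 e : Fin d × Bool) :
    0 < averaged d ε (2 * k + 1) (unitVec e) :=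
  lt_of_lt_of_le (pow_pos hε _) (averaged_ge hε (by nlinarith) _ _ _ fun ω =>
    (quenched_ge hε hε2 ω k e0).2 e)

theorem enorm'_zero : enorm' (0 : Fin d → ℤ) = 0 := by unfold enorm'; simp

theorem enorm'_unitVec (e : Fin d × Bool) : enorm' (unitVec e) = 1 := by
  unfold enorm' unitVec
  rw [Finset.sum_eq_single e.1]
  · rw [Pi.single_eq_same]; split_ifs <;> simp
  · intro j _ hj; rw [Pi.single_eq_of_ne hj]; simp
  · intro h; exact absurd (Finset.mem_univ _) h

/-- The local part of homogenization fails, for every `ε ∈ (0, 1/(2d))`. -/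
theorem not_local (hε : 0 < ε) (hε2 : ε < 1 / (2 * (d : ℝ))) : ¬ LocalHomogenization d ε := by
  classical
  intro hloc
  have hd : 1 ≤ d := Nat.one_le_iff_ne_zero.2 (NeZero.ne d)
  have hd' : (1 : ℝ) ≤ d := by exact_mod_cast hd
  have hε3 : 2 * (d : ℝ) * ε < 1 := by
    rw [lt_div_iff₀ (by positivity)] at hε2; linarith
  have hε4 : (2 * (d : ℝ) - 1) * ε ≤ 1 := by nlinarith
  set b : ℝ := 1 - (2 * (d : ℝ) - 1) * ε with hb
  have hab : ε < b := by rw [hb]; nlinarith
  have hb0 : 0 < b := hε.trans hab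
  let e0 : Fin d × Bool := (⟨0, hd⟩, true)
  set δ : ℝ := (b - ε) / (6 * b) with hδ
  have hδ0 : 0 < δ := by rw [hδ]; apply div_pos <;> linarith
  have hδ6 : δ ≤ 1 / 6 := by
    rw [hδ, div_le_div_iff₀ (by linarith) (by norm_num)]; linarith
  have hδb : 6 * b * δ = b - ε := by rw [hδ]; field_simp
  -- the contradiction on the constants
  have hcon : ε * (1 + δ) ^ 2 < b * (1 - δ) ^ 2 := by
    have h1 : (1 + δ) ^ 2 ≤ 1 + 3 * δ := by nlinarith
    have h2 : 1 - 2 * δ ≤ (1 - δ) ^ 2 := by nlinarith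
    have h3 : ε * (1 + δ) ^ 2 ≤ ε * (1 + 3 * δ) := mul_le_mul_of_nonneg_left h1 hε.le
    have h4 : b * (1 - 2 * δ) ≤ b * (1 - δ) ^ 2 := mul_le_mul_of_nonneg_left h2 hb0.le
    have h5 : ε * δ < b * δ := mul_lt_mul_of_pos_right hab hδ0
    nlinarith
  -- the two events
  set s : Finset (Fin d → ℤ) := Finset.univ.image (fun e : Fin d × Bool => unitVec e) with hs
  set E : Set (Env d) := Set.pi s (fun x => {c | unitVec c ≠ x}) with hE
  set F : Set (Env d) := Set.pi s (fun x => {c | unitVec c = x}) with hF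
  have hEpos : 0 < envLaw d E := by
    apply pos_event
    intro x hx
    rw [hs, Finset.mem_image] at hx
    obtain ⟨e, _, rfl⟩ := hx
    refine ⟨opp e, ?_⟩
    simp only [Set.mem_setOf_eq]
    intro h
    have := unitVec_inj h
    unfold opp at this
    have h2 := congrArg Prod.snd this
    simp at h2
  have hFpos : 0 < envLaw d F := by
    apply pos_event
    intro x hx
    rw [hs, Finset.mem_image] at hx
    obtain ⟨e, _, rfl⟩ := hx
    exact ⟨e, rfl⟩
  -- bad events
  have h1 := hloc 1 δ one_pos hδ0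
  set η : ℝ≥0∞ := min (envLaw d E) (envLaw d F) / (2 * d + 2) with hη
  have hmin0 : 0 < min (envLaw d E) (envLaw d F) := lt_min hEpos hFpos
  have hden : ((2 : ℝ≥0∞) * d + 2) ≠ ∞ := by
    apply ENNReal.add_ne_top.2
    exact ⟨ENNReal.mul_ne_top (by norm_num) (ENNReal.natCast_ne_top d), by norm_num⟩
  have hη0 : 0 < η := ENNReal.div_pos hmin0.ne' hden
  have h2 := h1.eventually (gt_mem_nhds hη0)
  obtain ⟨N, hN⟩ := Filter.eventually_atTop.1 h2
  set k := N + 1 with hk
  have hA := hN (2 * k + 1) (by omega)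
  have hB := hN (2 * k + 2) (by omega)
  have hAe : ∀ e : Fin d × Bool, envLaw d {ω | δ < |quenched ε ω (2 * k + 1) (unitVec e) /
      averaged d ε (2 * k + 1) (unitVec e) - 1|} ≤ η := by
    intro e
    refine le_trans ?_ hA.le
    refine le_iSup₂_of_le (unitVec e) ⟨?_, ?_⟩ le_rfl
    · rw [enorm'_unitVec, one_mul]
      apply Real.one_le_sqrt.2
      push_cast
      have : (0 : ℝ) ≤ k := Nat.cast_nonneg _
      linarith
    · exact averaged_pos1 hε hε3.le k e0 e
  have hB0 : envLaw d {ω | δ < |quenched ε ω (2 * k + 2) 0 /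
      averaged d ε (2 * k + 2) 0 - 1|} ≤ η := by
    refine le_trans ?_ hB.le
    refine le_iSup₂_of_le 0 ⟨?_, ?_⟩ le_rfl
    · rw [enorm'_zero, one_mul]; positivity
    · have := averaged_pos0 hε hε3.le (k + 1) e0
      rw [show 2 * (k + 1) = 2 * k + 2 by ring] at this
      exact this
  set Bad : Set (Env d) := (⋃ e ∈ (Finset.univ : Finset (Fin d × Bool)),
    {ω | δ < |quenched ε ω (2 * k + 1) (unitVec e) /
      averaged d ε (2 * k + 1) (unitVec e) - 1|}) ∪
    {ω | δ < |quenched ε ω (2 * k + 2) 0 / averaged d ε (2 * k + 2) 0 - 1|} with hBad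
  have hBadm : envLaw d Bad < min (envLaw d E) (envLaw d F) := by
    calc envLaw d Bad ≤ envLaw d (⋃ e ∈ (Finset.univ : Finset (Fin d × Bool)),
            {ω | δ < |quenched ε ω (2 * k + 1) (unitVec e) /
            averaged d ε (2 * k + 1) (unitVec e) - 1|}) + η :=
          (measure_union_le _ _).trans (add_le_add le_rfl hB0)
      _ ≤ ∑ e ∈ (Finset.univ : Finset (Fin d × Bool)), η + η := by
          refine add_le_add ?_ le_rfl
          refine (measure_biUnion_finset_le _ _).trans ?_
          exact Finset.sum_le_sum fun e _ => hAe e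
      _ = (2 * d + 1) * η := by
          rw [Finset.sum_const, Finset.card_univ, Fintype.card_prod, Fintype.card_fin,
            Fintype.card_bool, nsmul_eq_mul]
          push_cast
          ring
      _ < (2 * d + 2) * η := by
          have hηt : η ≠ ∞ := by
            rw [hη]
            apply ENNReal.div_ne_top
            · exact ne_top_of_le_ne_top (measure_ne_top _ _) (min_le_left _ _)
            · simp
          apply ENNReal.mul_lt_mul_left hη0.ne' hηt
          have h3 : ((2 : ℝ≥0∞) * d + 1) ≠ ∞ := by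
            apply ENNReal.add_ne_top.2
            exact ⟨ENNReal.mul_ne_top (by norm_num) (ENNReal.natCast_ne_top d), by norm_num⟩
          have h4 : ((2 * d + 1 : ℕ) : ℝ≥0∞) < ((2 * d + 2 : ℕ) : ℝ≥0∞) := by
            exact_mod_cast (by omega : 2 * d + 1 < 2 * d + 2)
          push_cast at h4
          exact h4
      _ = min (envLaw d E) (envLaw d F) := by
          rw [hη]
          exact ENNReal.mul_div_cancel (by simp) hden
  obtain ⟨ω, hωE, hωB⟩ : ∃ ω, ω ∈ E ∧ ω ∉ Bad := by
    by_contra hc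
    push Not at hc
    exact absurd (measure_mono (μ := envLaw d) hc) (not_le.2 (hBadm.trans_le (min_le_left _ _)))
  obtain ⟨ω', hωF, hωB'⟩ : ∃ ω, ω ∈ F ∧ ω ∉ Bad := by
    by_contra hc
    push Not at hc
    exact absurd (measure_mono (μ := envLaw d) hc) (not_le.2 (hBadm.trans_le (min_le_right _ _)))
  -- estimates outside of the bad event
  set m : ℝ := averaged d ε (2 * k + 2) 0 with hm
  have hm0 : 0 < m := by
    have := averaged_pos0 hε hε3.le (k + 1) e0
    rw [show 2 * (k + 1) = 2 * k + 2 by ring] at this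
    exact this
  set M : Fin d × Bool → ℝ := fun e => averaged d ε (2 * k + 1) (unitVec e) with hM
  have hM0 : ∀ e, 0 < M e := fun e => averaged_pos1 hε hε3.le k e0 e
  set S : ℝ := ∑ e, M e with hS
  have hS0 : 0 < S := Finset.sum_pos (fun e _ => hM0 e) ⟨e0, Finset.mem_univ _⟩
  have hest : ∀ w : Env d, w ∉ Bad → (∀ e, (1 - δ) * M e ≤ quenched ε w (2 * k + 1) (unitVec e) ∧
      quenched ε w (2 * k + 1) (unitVec e) ≤ (1 + δ) * M e) ∧
      (1 - δ) * m ≤ quenched ε w (2 * k + 2) 0 ∧ quenched ε w (2 * k + 2) 0 ≤ (1 + δ) * m := by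
    intro w hw
    rw [hBad] at hw
    simp only [Set.mem_union, Set.mem_iUnion, Set.mem_setOf_eq, Finset.mem_univ, exists_prop,
      true_and, not_or, not_exists, not_lt] at hw
    have key : ∀ q c : ℝ, 0 < c → |q / c - 1| ≤ δ → (1 - δ) * c ≤ q ∧ q ≤ (1 + δ) * c := by
      intro q c hc hq
      rw [abs_le] at hq
      constructor
      · have := hq.1
        rw [← le_div_iff₀ hc]; linarith
      · have := hq.2
        rw [← div_le_iff₀ hc]; linarith
    exact ⟨fun e => key _ _ (hM0 e) (hw.1 e), key _ _ hm0 hw.2⟩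
  -- on `E`
  have hE1 : quenched ε ω (2 * k + 2) 0 = ε * ∑ e, quenched ε ω (2 * k + 1) (unitVec e) := by
    show ∑ e' : Fin d × Bool, quenched ε ω (2 * k + 1) (0 + unitVec e') *
        trans ε ω (0 + unitVec e') 0 = _
    rw [Finset.mul_sum]
    apply Finset.sum_congr rfl
    intro e _
    rw [zero_add]
    have hx : unitVec (ω (unitVec e)) ≠ unitVec e := by
      have := hωE (unitVec e) (by rw [hs]; simp)
      exact this
    have : trans ε ω (unitVec e) 0 = ε := by
      unfold trans
      rw [sub_zero, if_neg (fun h => hx h.symm), if_pos ⟨e, rfl⟩]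
    rw [this]; ring
  have hF1 : quenched ε ω' (2 * k + 2) 0 = b * ∑ e, quenched ε ω' (2 * k + 1) (unitVec e) := by
    show ∑ e' : Fin d × Bool, quenched ε ω' (2 * k + 1) (0 + unitVec e') *
        trans ε ω' (0 + unitVec e') 0 = _
    rw [Finset.mul_sum]
    apply Finset.sum_congr rfl
    intro e _
    rw [zero_add]
    have hx : unitVec (ω' (unitVec e)) = unitVec e := by
      have := hωF (unitVec e) (by rw [hs]; simp)
      exact this
    have : trans ε ω' (unitVec e) 0 = b := by
      unfold trans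
      rw [sub_zero, if_pos hx.symm]
    rw [this]; ring
  obtain ⟨he1, he2, he3⟩ := hest ω hωB
  obtain ⟨hf1, hf2, hf3⟩ := hest ω' hωB'
  have hsum1 : ∑ e, quenched ε ω (2 * k + 1) (unitVec e) ≤ (1 + δ) * S := by
    rw [hS, Finset.mul_sum]
    exact Finset.sum_le_sum fun e _ => (he1 e).2
  have hsum2 : (1 - δ) * S ≤ ∑ e, quenched ε ω' (2 * k + 1) (unitVec e) := by
    rw [hS, Finset.mul_sum]
    exact Finset.sum_le_sum fun e _ => (hf1 e).1
  rw [hE1] at he2
  rw [hF1] at hf3
  have g1 : (1 - δ) * m ≤ ε * ((1 + δ) * S) :=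
    he2.trans (mul_le_mul_of_nonneg_left hsum1 hε.le)
  have g2 : b * ((1 - δ) * S) ≤ (1 + δ) * m :=
    (mul_le_mul_of_nonneg_left hsum2 hb0.le).trans hf3
  have hδ1 : 0 < 1 - δ := by linarith
  have hδ2 : 0 < 1 + δ := by linarith
  have g3 : b * (1 - δ) ^ 2 * S ≤ ε * (1 + δ) ^ 2 * S := by
    calc b * (1 - δ) ^ 2 * S = (1 - δ) * (b * ((1 - δ) * S)) := by ring
      _ ≤ (1 - δ) * ((1 + δ) * m) := mul_le_mul_of_nonneg_left g2 hδ1.le
      _ = (1 + δ) * ((1 - δ) * m) := by ring
      _ ≤ (1 + δ) * (ε * ((1 + δ) * S)) := mul_le_mul_of_nonneg_left g1 hδ2.le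
      _ = ε * (1 + δ) ^ 2 * S := by ring
  have g4 := le_of_mul_le_mul_right g3 hS0
  linarith

end

/-- In every dimension `d ≥ 1` (in particular for every `d ≥ 3`) and for every
`ε ∈ (0, 1/(2d))` the model does not homogenize: condition (ii) fails. -/
theorem result : ∀ (d : ℕ) [NeZero d] (ε : ℝ), 0 < ε → ε < 1 / (2 * (d : ℝ)) →
    ¬ LocalHomogenization d ε ∧ ¬ Homogenizes d ε := by
  intro d _ ε h1 h2
  exact ⟨not_local h1 h2, fun h => not_local h1 h2 h.2⟩

end Pool.Agent.Results.MP_31ab2b_pr.NoLocalHomogenization
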